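import Pool.Agent.Lib_helper39.Visc.Defs

/-!
# The real inequalities for the barrier
-/

set_option autoImplicit false

namespace Pool.Agent.Lib_helper39.Visc

open Set Filter Topology

lemma G_of_nonneg {y : ℝ} (hy : 0 ≤ y) : G y = 2 * min (√y) 1 := by
  rw [G, Real.sqrt_eq_zero_of_nonpos (show -y ≤ 0 by linarith), min_eq_left (zero_le_one),
    sub_zero]

lemma G_neg (y : ℝ) : G (-y) = -G y := by
  rw [G, G, neg_neg]
  ring

lemma abs_G_le (y : ℝ) : |G y| ≤ 2 := by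
  rcases le_total 0 y with h | h
  · rw [G_of_nonneg h, abs_of_nonneg (by positivity)]
    linarith [min_le_right (√y) 1]
  · have h1 : G y = -(2 * min (√(-y)) 1) := by
      rw [← G_of_nonneg (show 0 ≤ -y by linarith), G_neg, neg_neg]
    rw [h1, abs_neg, abs_of_nonneg (by positivity)]
    linarith [min_le_right (√(-y)) 1]

lemma continuous_G : Continuous G := by
  unfold G
  fun_prop

lemma G_mono : Monotone G := by
  intro x y hxy
  unfold G
  have h1 : √x ≤ √y := Real.sqrt_le_sqrt hxy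
  have h2 : √(-y) ≤ √(-x) := Real.sqrt_le_sqrt (by linarith)
  have h3 := min_le_min_right 1 h1
  have h4 := min_le_min_right 1 h2
  linarith

/-- modulus of continuity of `G` -/
lemma G_sub (y r : ℝ) (hr : 0 ≤ r) : G y - 4 * √r ≤ G (y - r) := by
  unfold G
  have h1 : √y ≤ √(y - r) + √r := by
    rcases le_total (y - r) 0 with h | h
    · have : √y ≤ √r := Real.sqrt_le_sqrt (by linarith)
      linarith [Real.sqrt_nonneg (y - r)]
    · rw [Real.sqrt_le_left (by positivity)]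
      nlinarith [Real.sq_sqrt h, Real.sq_sqrt hr, Real.sqrt_nonneg (y - r), Real.sqrt_nonneg r,
        mul_nonneg (Real.sqrt_nonneg (y - r)) (Real.sqrt_nonneg r)]
  have h2 : √(-(y - r)) ≤ √(-y) + √r := by
    rcases le_total (-y) 0 with h | h
    · have : √(-(y - r)) ≤ √r := Real.sqrt_le_sqrt (by linarith)
      linarith [Real.sqrt_nonneg (-y)]
    · rw [Real.sqrt_le_left (by positivity)]
      nlinarith [Real.sq_sqrt h, Real.sq_sqrt hr, Real.sqrt_nonneg (-y), Real.sqrt_nonneg r,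
        mul_nonneg (Real.sqrt_nonneg (-y)) (Real.sqrt_nonneg r)]
  have h3 : 0 ≤ √r := Real.sqrt_nonneg r
  have h4 : min (√y) 1 ≤ min (√(y - r)) 1 + √r := by
    rcases le_total (√(y - r)) 1 with h | h
    · rw [min_eq_left h]; exact (min_le_left _ _).trans h1
    · rw [min_eq_right h]; exact (min_le_right _ _).trans (by linarith)
  have h5 : min (√(-(y - r))) 1 ≤ min (√(-y)) 1 + √r := by
    rcases le_total (√(-y)) 1 with h | h
    · rw [min_eq_left h]; exact (min_le_left _ _).trans h2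
    · rw [min_eq_right h]; exact (min_le_right _ _).trans (by linarith)
  linarith

/-- The main inequality for the barrier. -/
lemma star_ineq {s v l : ℝ} (hs : 0 < s) (hs1 : s ≤ 1) (hv : 0 ≤ v) (hl : 0 ≤ l) :
    s / 2 + s / 10 ≤ Real.exp (l - v) * (8 * Real.exp 160 + v / (4 * s)) +
      G (s ^ 2 / 4 - Real.exp (l - v)) := by
  set A := Real.exp (l - v) with hA
  have hA0 : 0 < A := Real.exp_pos _
  have h0 : 0 ≤ A * (8 * Real.exp 160 + v / (4 * s)) := by positivity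
  rcases le_total A (s ^ 2 / 100) with h | h
  · have h1 : (9 * s / 20) ^ 2 ≤ s ^ 2 / 4 - A := by nlinarith [sq_nonneg s]
    have h2 : 9 * s / 20 ≤ √(s ^ 2 / 4 - A) := Real.le_sqrt_of_sq_le h1
    have h3 : 0 ≤ s ^ 2 / 4 - A := le_trans (by positivity) h1
    rw [G_of_nonneg h3]
    have h4 : 9 * s / 20 ≤ min (√(s ^ 2 / 4 - A)) 1 := le_min h2 (by linarith)
    linarith
  · set y := Real.exp ((l - v) / 2) with hy
    have hy0 : 0 < y := Real.exp_pos _
    have hyA : y ^ 2 = A := by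
      rw [hy, hA, ← Real.exp_nat_mul]
      congr 1; push_cast; ring
    have hsy : s ≤ 10 * y := by
      have h1 : (s / 10) ^ 2 ≤ y ^ 2 := by rw [hyA]; nlinarith
      have := abs_le_of_sq_le_sq' h1 hy0.le
      linarith [this.2]
    have hG : -(2 * y) ≤ G (s ^ 2 / 4 - A) := by
      have h1 : G (-A) ≤ G (s ^ 2 / 4 - A) := G_mono (by nlinarith [sq_nonneg s])
      have h2 : G (-A) = -(2 * min (√A) 1) := by rw [G_neg, G_of_nonneg hA0.le]
      have h3 : √A = y := by rw [← hyA, Real.sqrt_sq hy0.le]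
      rw [h2, h3] at h1
      linarith [min_le_left y 1]
    have key : 8 ≤ y * (8 * Real.exp 160 + v / (4 * s)) := by
      rcases le_total v 320 with h1 | h1
      · have h2 : Real.exp (-160) ≤ y := by
          rw [hy]; apply Real.exp_le_exp.mpr; linarith
        have h3 : Real.exp (-160) * Real.exp 160 = 1 := by
          rw [← Real.exp_add]; simp
        have h4 : 0 ≤ v / (4 * s) := by positivity
        have h5 : 0 < Real.exp 160 := Real.exp_pos _
        nlinarith [mul_le_mul_of_nonneg_right h2 h5.le, mul_nonneg hy0.le h4]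
      · have h2 : 8 ≤ y * (v / (4 * s)) := by
          rw [mul_div_assoc', le_div_iff₀ (by positivity)]
          nlinarith
        have h5 : 0 < Real.exp 160 := Real.exp_pos _
        nlinarith [mul_pos hy0 h5]
    have h6 : A * (8 * Real.exp 160 + v / (4 * s)) =
        y * (y * (8 * Real.exp 160 + v / (4 * s))) := by rw [← hyA]; ring
    rw [h6]
    nlinarith [mul_le_mul_of_nonneg_left key hy0.le]

/-- The inequality for the linear operator. -/
lemma lin_ineq {s ζ m A K θ Λ bx S F c1 : ℝ} (hs : 0 < s) (hζ : 0 ≤ ζ) (hm : 0 < m)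
    (hA : 0 ≤ A) (hK : 0 ≤ K) (hθ : 0 < θ) (hbx : |bx| ≤ 4 * K) (hS0 : 0 ≤ S) (hS : S ≤ K ^ 2)
    (hF0 : 0 ≤ F) (hF : F ≤ K ^ 2) (hm1 : m / (2 * s) ≤ s * m ^ 3) (hm2 : m ^ 2 / 2 ≤ s * m ^ 3)
    (hθK : 64 * θ * K ^ 2 ≤ 1) (hΛ : Λ = c1 + 2 * θ * (16 * K + 2 * K ^ 2) ^ 2) :
    A * (c1 + θ * ζ ^ 2 * m / (4 * s)) ≤
      A * (Λ + θ * ζ ^ 2 * (s * m ^ 3)) +
        (-2 * (2 * θ * ζ * m * A) * bx +
          2 * (2 * θ * m * A - 4 * θ ^ 2 * ζ ^ 2 * m ^ 2 * A) * S - 2 * θ * ζ * m * A * F) := by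
  have hbx' := (abs_le.mp hbx).2
  set C := 16 * K + 2 * K ^ 2 with hC
  have hC0 : 0 ≤ C := by positivity
  have e1 : θ * ζ ^ 2 * m / (4 * s) = θ * ζ ^ 2 * (m / (2 * s)) / 2 := by field_simp; norm_num
  have e2 : θ * ζ ^ 2 * (m / (2 * s)) ≤ θ * ζ ^ 2 * (s * m ^ 3) :=
    mul_le_mul_of_nonneg_left hm1 (by positivity)
  have e3 : θ * ζ ^ 2 * (m ^ 2 / 2) ≤ θ * ζ ^ 2 * (s * m ^ 3) :=
    mul_le_mul_of_nonneg_left hm2 (by positivity)
  have e4 : C * (ζ * m) ≤ (ζ * m) ^ 2 / 8 + 2 * C ^ 2 := by nlinarith [sq_nonneg (ζ * m / 2 - 2 * C)]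
  have e5 : 8 * θ ^ 2 * K ^ 2 * (ζ * m) ^ 2 ≤ θ * (ζ * m) ^ 2 / 8 := by
    have : 0 ≤ θ * (ζ * m) ^ 2 := by positivity
    nlinarith
  have f1 : θ * ζ * m * bx ≤ θ * ζ * m * (4 * K) := mul_le_mul_of_nonneg_left hbx' (by positivity)
  have f2 : θ ^ 2 * ζ ^ 2 * m ^ 2 * S ≤ θ ^ 2 * ζ ^ 2 * m ^ 2 * K ^ 2 :=
    mul_le_mul_of_nonneg_left hS (by positivity)
  have f3 : θ * ζ * m * F ≤ θ * ζ * m * K ^ 2 := mul_le_mul_of_nonneg_left hF (by positivity)
  have f4 : 0 ≤ θ * m * S := by positivity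
  have key : c1 + θ * ζ ^ 2 * m / (4 * s) ≤ Λ + θ * ζ ^ 2 * (s * m ^ 3) +
      (-4 * (θ * ζ * m * bx) + 4 * (θ * m * S) - 8 * (θ ^ 2 * ζ ^ 2 * m ^ 2 * S) -
        2 * (θ * ζ * m * F)) := by
    rw [e1, hΛ]
    have g1 : θ * ζ ^ 2 * (m ^ 2 / 2) = θ * (ζ * m) ^ 2 / 2 := by ring
    have g2 : θ * (C * (ζ * m)) ≤ θ * ((ζ * m) ^ 2 / 8 + 2 * C ^ 2) :=
      mul_le_mul_of_nonneg_left e4 hθ.le
    have g3 : θ ^ 2 * ζ ^ 2 * m ^ 2 * K ^ 2 = θ ^ 2 * K ^ 2 * (ζ * m) ^ 2 := by ring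
    have g4 : θ * (C * (ζ * m)) = 4 * (θ * ζ * m * (4 * K)) + 2 * (θ * ζ * m * K ^ 2) := by
      rw [hC]; ring
    rw [g3] at f2
    nlinarith
  calc A * (c1 + θ * ζ ^ 2 * m / (4 * s)) ≤ A * (Λ + θ * ζ ^ 2 * (s * m ^ 3) +
      (-4 * (θ * ζ * m * bx) + 4 * (θ * m * S) - 8 * (θ ^ 2 * ζ ^ 2 * m ^ 2 * S) -
        2 * (θ * ζ * m * F))) := mul_le_mul_of_nonneg_left key hA
    _ = _ := by ring

end Pool.Agent.Lib_helper39.Visc
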