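import Pool.Agent.Lib_helper39.Visc.Defs

/-!
# Derivatives of the test functions `p (ζ x) - N (x₁ - a)²`, `ζ x = 1 - ‖x‖² + x₁²`
-/

set_option autoImplicit false

namespace Pool.Agent.Lib_helper39.Visc

open Set Filter Topology

variable {n d : ℕ}

/-- `ζ x = 1 - |x'|²`, `x'` = the other coordinates. -/
noncomputable def zeta (i0 : Fin n) (x : E n) : ℝ := 1 - ‖x‖ ^ 2 + x i0 ^ 2

/-- the first coordinate as a linear map -/
noncomputable def pr (i0 : Fin n) : E n →L[ℝ] ℝ := EuclideanSpace.proj i0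

@[simp] lemma pr_apply (i0 : Fin n) (x : E n) : pr i0 x = x i0 := rfl

/-- the derivative of `ζ` -/
noncomputable def dzeta (i0 : Fin n) (x : E n) : E n →L[ℝ] ℝ :=
  (-2 : ℝ) • innerSL ℝ x + (2 * x i0) • pr i0

lemma hasFDerivAt_zeta (i0 : Fin n) (x : E n) : HasFDerivAt (zeta i0) (dzeta i0 x) x := by
  have h1 : HasFDerivAt (fun x : E n => ‖x‖ ^ 2) (2 • innerSL ℝ x) x :=
    (hasStrictFDerivAt_norm_sq x).hasFDerivAt
  have h2 : HasFDerivAt (fun x : E n => x i0) (pr i0) x := (pr i0).hasFDerivAt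
  have h3 := ((h1.const_sub 1).add (h2.pow 2))
  refine h3.congr_fderiv ?_
  ext v
  simp [dzeta]

lemma dzeta_apply (i0 : Fin n) (x v : E n) :
    dzeta i0 x v = -2 * inner ℝ x v + 2 * x i0 * v i0 := by
  simp [dzeta]

/-- the inner product as a bilinear map -/
noncomputable def inn : E n →L[ℝ] (E n →L[ℝ] ℝ) :=
  LinearMap.mkContinuous₂ (innerₗ (E n)) 1 fun x y => by
    rw [one_mul]; exact norm_inner_le_norm (𝕜 := ℝ) x y

@[simp] lemma inn_apply (x y : E n) : inn x y = inner ℝ x y := rfl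

/-- the second derivative of `ζ` -/
noncomputable def ddzeta (i0 : Fin n) : E n →L[ℝ] (E n →L[ℝ] ℝ) :=
  (-2 : ℝ) • inn + (2 : ℝ) • (pr i0).smulRight (pr i0)

lemma hasFDerivAt_dzeta (i0 : Fin n) (x : E n) : HasFDerivAt (dzeta i0) (ddzeta i0) x := by
  have h : dzeta i0 = fun y => ddzeta i0 y := by
    funext y
    ext v
    simp [dzeta, ddzeta, mul_assoc]
  rw [h]
  exact (ddzeta i0).hasFDerivAt

lemma ddzeta_apply (i0 : Fin n) (v w : E n) :
    ddzeta i0 v w = -2 * inner ℝ v w + 2 * v i0 * w i0 := by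
  simp [ddzeta, mul_assoc]

/-- the space part of a test function -/
noncomputable def tst (i0 : Fin n) (p : ℝ → ℝ) (N a : ℝ) (x : E n) : ℝ :=
  p (zeta i0 x) - N * (x i0 - a) ^ 2

variable {i0 : Fin n} {p p1 p2 : ℝ → ℝ} {N a : ℝ}

lemma hasFDerivAt_tst (hp : ∀ z, HasDerivAt p (p1 z) z) (x : E n) :
    HasFDerivAt (tst i0 p N a) (p1 (zeta i0 x) • dzeta i0 x - (2 * N * (x i0 - a)) • pr i0) x := by
  have h1 := (hp (zeta i0 x)).comp_hasFDerivAt x (hasFDerivAt_zeta i0 x)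
  have h2 : HasFDerivAt (fun x : E n => x i0 - a) (pr i0) x := (pr i0).hasFDerivAt.sub_const a
  have h3 := h1.sub ((h2.pow 2).const_mul N)
  refine h3.congr_fderiv ?_
  ext v
  simp
  ring

lemma hasFDerivAt_dtst (hp1 : ∀ z, HasDerivAt p1 (p2 z) z) (x : E n) :
    HasFDerivAt (fun x => p1 (zeta i0 x) • dzeta i0 x - (2 * N * (x i0 - a)) • pr i0)
      (p1 (zeta i0 x) • ddzeta i0 + (p2 (zeta i0 x) • dzeta i0 x).smulRight (dzeta i0 x) -
        ((2 * N) • pr i0).smulRight (pr i0)) x := by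
  have h1 := (hp1 (zeta i0 x)).comp_hasFDerivAt x (hasFDerivAt_zeta i0 x)
  have h2 := h1.smul (hasFDerivAt_dzeta i0 x)
  have h3 : HasFDerivAt (fun x : E n => 2 * N * (x i0 - a)) ((2 * N) • pr i0) x :=
    ((pr i0).hasFDerivAt.sub_const a).const_mul (2 * N)
  have h4 := h3.smul (hasFDerivAt_const (pr i0) x)
  refine (h2.sub h4).congr_fderiv ?_
  ext v w
  simp

lemma hess_tst (hp : ∀ z, HasDerivAt p (p1 z) z) (hp1 : ∀ z, HasDerivAt p1 (p2 z) z)
    (x v w : E n) : iteratedFDeriv ℝ 2 (tst i0 p N a) x ![v, w] =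
      p1 (zeta i0 x) * (-2 * inner ℝ v w + 2 * v i0 * w i0) +
        p2 (zeta i0 x) * (-2 * inner ℝ x v + 2 * x i0 * v i0) *
          (-2 * inner ℝ x w + 2 * x i0 * w i0) - 2 * N * v i0 * w i0 := by
  rw [iteratedFDeriv_two_apply]
  have h1 : fderiv ℝ (tst i0 p N a) =
      fun x => p1 (zeta i0 x) • dzeta i0 x - (2 * N * (x i0 - a)) • pr i0 :=
    funext fun x => (hasFDerivAt_tst hp x).fderiv
  rw [h1, (hasFDerivAt_dtst hp1 x).fderiv]
  simp [ddzeta_apply, dzeta_apply]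

end Pool.Agent.Lib_helper39.Visc
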