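import Pool.Agent.Lib_helper39.Visc.Test

/-!
# The comparison with the barrier
-/

set_option autoImplicit false

namespace Pool.Agent.Lib_helper39.Visc

open Set Filter Topology

variable {n d : ℕ}

/-- the hypotheses on the coefficients -/
structure Coef (D : EqData n d) (i0 : Fin n) (K : ℝ) : Prop where
  K0 : 0 ≤ K
  b0 : ∀ t ∈ Icc 0 D.T, ‖D.b t 0‖ ≤ K
  bL : ∀ t ∈ Icc 0 D.T, ∀ x, ‖D.b t x - D.b t 0‖ ≤ K * ‖x‖
  σK : ∀ t ∈ Icc 0 D.T, ∀ x, frob (D.σ t x) ≤ K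
  b1 : ∀ t ∈ Icc 0 D.T, ∀ x, D.b t x i0 = 0
  σ1 : ∀ t ∈ Icc 0 D.T, ∀ x j, D.σ t x i0 j = 0

/-- a supersolution of the equation with `g = G(y)` -/
structure IsSuper (D : EqData n d) (t₁ : ℝ) (v : ℝ × E n → ℝ) : Prop where
  cont : ContinuousOn v (Icc t₁ D.T ×ˢ univ)
  super : ∀ φ : ℝ × E n → ℝ, ContDiff ℝ ((⊤ : ℕ∞) : WithTop ℕ∞) φ → ∀ q : ℝ × E n,
    q.1 ∈ Ioo t₁ D.T → IsLocalMin (fun r => v r - φ r) q → dt φ q + D.L φ q + G (v q) ≤ 0

lemma continuous_zeta (i0 : Fin n) : Continuous (zeta i0) := by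
  have h : Continuous (fun x : E n => x i0) := (pr i0).continuous
  unfold zeta
  fun_prop

/-- the domain of the comparison -/
def Dom (i0 : Fin n) : Set (E n) := {x | 0 ≤ zeta i0 x ∧ |x i0| ≤ 2}

lemma continuous_coord (i0 : Fin n) : Continuous (fun x : E n => x i0) := (pr i0).continuous

lemma isCompact_Dom (i0 : Fin n) : IsCompact (Dom i0) := by
  apply Metric.isCompact_of_isClosed_isBounded
  · exact (isClosed_le continuous_const (continuous_zeta i0)).inter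
      (isClosed_le (continuous_coord i0).abs continuous_const)
  · rw [isBounded_iff_forall_norm_le]
    refine ⟨3, fun x hx => ?_⟩
    have h7 : ‖x‖ ^ 2 = 1 - zeta i0 x + x i0 ^ 2 := by rw [zeta]; ring
    have h8 : x i0 ^ 2 ≤ 2 ^ 2 := by rw [← sq_abs]; exact pow_le_pow_left₀ (abs_nonneg _) hx.2 2
    nlinarith [norm_nonneg x, hx.1]

lemma zeta_add_single (i0 : Fin n) (x : E n) (c : ℝ) :
    zeta i0 (x + EuclideanSpace.single i0 c) = zeta i0 x := by
  have h1 := zeta_eq i0 x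
  have h2 := zeta_eq i0 (x + EuclideanSpace.single i0 c)
  have h3 : ∑ i, (if i = i0 then 0 else (x + EuclideanSpace.single i0 c : E n) i ^ 2) =
      ∑ i, (if i = i0 then 0 else x i ^ 2) := by
    refine Finset.sum_congr rfl fun i _ => ?_
    by_cases hi : i = i0
    · simp [hi]
    · simp [hi]
  rw [h3] at h2
  linarith

/-- the barrier -/
noncomputable def WW (i0 : Fin n) (l Λ θ δ : ℝ) (r : ℝ × E n) : ℝ :=
  r.1 ^ 2 / 4 - AA l Λ θ δ r.1 (zeta i0 r.2)

lemma continuous_WW (i0 : Fin n) {l Λ θ δ : ℝ} (hδ : 0 < δ) : Continuous (WW i0 l Λ θ δ) := by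
  have h1 : Continuous (mm δ) := (contDiff_mm hδ).continuous
  have h2 := continuous_zeta i0
  unfold WW AA
  fun_prop

lemma WW_le {i0 : Fin n} {l Λ θ δ : ℝ} {r : ℝ × E n} (h0 : 0 ≤ r.1) (h1 : r.1 ≤ 1) :
    WW i0 l Λ θ δ r ≤ 1 := by
  have h2 : 0 < AA l Λ θ δ r.1 (zeta i0 r.2) := Real.exp_pos _
  rw [WW]
  nlinarith

/-- The lower bound for supersolutions that are positive at the terminal time. -/
theorem lower (D : EqData n d) (i0 : Fin n) {K : ℝ} (hC : Coef D i0 K) {t₁ : ℝ}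
    {v : ℝ × E n → ℝ} (hv : IsSuper D t₁ v) {S M : ℝ} (hS0 : 0 < S) (hS1 : 2 * S ≤ 1)
    (hS2 : 2 * S < D.T - t₁) (hS3 : 2 * S ≤ D.T)
    (hM : ∀ s ∈ Icc 0 (2 * S), ∀ x ∈ Dom i0, |v (D.T - s, x)| ≤ M)
    {l θ Λ : ℝ} (hl : l = M + 2) (hθ : 0 < θ) (hθK : 64 * θ * K ^ 2 ≤ 1)
    (hΛ : Λ = 8 * Real.exp 160 + 2 * θ * (16 * K + 2 * K ^ 2) ^ 2)
    {a ε δ : ℝ} (ha : |a| ≤ 1) (hε : 0 < ε) (hδ : 0 < δ) (hδS : δ ≤ S) (hδε : δ ≤ ε)
    (hinit : ∀ x ∈ Dom i0, x i0 = a → ε / 2 ≤ v (D.T - δ, x)) :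
    ∀ s ∈ Icc δ S, ∀ x ∈ Dom i0, x i0 = a → WW i0 l Λ θ δ (s, x) ≤ v (D.T - s, x) := by
  by_contra hcon
  push Not at hcon
  obtain ⟨ss, hss, xs, hxs, hxa, hneg⟩ := hcon
  set Dv : ℝ × E n → ℝ := fun r => v (D.T - r.1, r.2) - WW i0 l Λ θ δ r with hDv
  have hM0 : 0 ≤ M := (abs_nonneg _).trans (hM 0 ⟨le_rfl, by linarith⟩ xs hxs)
  have hvc : ContinuousOn (fun r : ℝ × E n => v (D.T - r.1, r.2))
      (Icc 0 (2 * S) ×ˢ (univ : Set (E n))) := by
    refine hv.cont.comp (t := Icc t₁ D.T ×ˢ univ) (by fun_prop) ?_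
    rintro ⟨s, x⟩ ⟨hs, -⟩
    exact ⟨⟨by simp only; linarith [hs.2], by simp only; linarith [hs.1]⟩, mem_univ _⟩
  have hDc : ContinuousOn Dv (Icc 0 (2 * S) ×ˢ (univ : Set (E n))) :=
    hvc.sub (continuous_WW i0 hδ).continuousOn
  -- the threshold
  obtain ⟨e, he0, he1, he2, he3⟩ : ∃ e : ℝ, 0 < e ∧ e ≤ (δ / 100) ^ 2 / 2 ∧ e ≤ ε / 8 ∧
      e ≤ -Dv (ss, xs) := by
    have h1 : 0 < -Dv (ss, xs) := by simp only [hDv]; linarith
    refine ⟨min (min ((δ / 100) ^ 2 / 2) (ε / 8)) (-Dv (ss, xs)), by positivity, ?_, ?_, ?_⟩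
    · exact (min_le_left _ _).trans (min_le_left _ _)
    · exact (min_le_left _ _).trans (min_le_right _ _)
    · exact min_le_right _ _
  -- positivity at the initial time
  have hstart : ∀ x ∈ Dom i0, x i0 = a → ε / 4 ≤ Dv (δ, x) := by
    intro x hx hx0
    have h1 := hinit x hx hx0
    have h2 : WW i0 l Λ θ δ (δ, x) ≤ ε / 4 := by
      have h3 : 0 < AA l Λ θ δ δ (zeta i0 x) := Real.exp_pos _
      rw [WW]
      simp only
      nlinarith
    simp only [hDv]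
    linarith
  -- the first time where the threshold is reached
  have hZ0 : IsCompact ((Icc δ S ×ˢ (Dom i0 ∩ {x | x i0 = a})) ∩ Dv ⁻¹' Iic (-e)) := by
    have hc : IsCompact (Icc δ S ×ˢ (Dom i0 ∩ {x : E n | x i0 = a})) :=
      isCompact_Icc.prod ((isCompact_Dom i0).inter_right
        (isClosed_eq (continuous_coord i0) continuous_const))
    have hsub : Icc δ S ×ˢ (Dom i0 ∩ {x : E n | x i0 = a}) ⊆
        Icc 0 (2 * S) ×ˢ (univ : Set (E n)) := by
      rintro ⟨s, x⟩ ⟨hs, -⟩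
      exact ⟨⟨by linarith [hs.1], by linarith [hs.2]⟩, mem_univ _⟩
    exact hc.of_isClosed_subset ((hDc.mono hsub).preimage_isClosed_of_isClosed hc.isClosed
      isClosed_Iic) inter_subset_left
  obtain ⟨⟨sh, xh⟩, hmem, hmin⟩ := hZ0.exists_isMinOn
    ⟨(ss, xs), ⟨hss, hxs, hxa⟩, by simp only [mem_preimage, mem_Iic]; linarith⟩
    continuous_fst.continuousOn
  obtain ⟨⟨hsh, hxh, hxha⟩, hDh⟩ := hmem
  simp only [mem_preimage, mem_Iic] at hDh
  simp only at hsh hxh hxha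
  have hδsh : δ < sh := by
    rcases lt_or_eq_of_le hsh.1 with h | h
    · exact h
    · exfalso
      have := hstart xh hxh hxha
      rw [h] at this
      linarith
  have hbefore : ∀ s, δ ≤ s → s < sh → ∀ x ∈ Dom i0, x i0 = a → -e < Dv (s, x) := by
    intro s h1 h2 x hx hxa'
    by_contra h3
    push Not at h3
    have := hmin (show (s, x) ∈ (Icc δ S ×ˢ (Dom i0 ∩ {x | x i0 = a})) ∩ Dv ⁻¹' Iic (-e) from
      ⟨⟨⟨h1, by linarith [hsh.2]⟩, hx, hxa'⟩, h3⟩)
    have h4 : sh ≤ s := this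
    linarith
  have hat : ∀ x ∈ Dom i0, x i0 = a → -e ≤ Dv (sh, x) := by
    intro x hx hxa'
    have hc : ContinuousOn (fun s => Dv (s, x)) (Icc 0 (2 * S)) :=
      hDc.comp (by fun_prop) (fun s hs => ⟨hs, mem_univ _⟩)
    have hc2 : ContinuousWithinAt (fun s => Dv (s, x)) (Ioo δ sh) sh :=
      (hc sh ⟨by linarith, by linarith [hsh.2]⟩).mono
        (fun s hs => ⟨by linarith [hs.1], by linarith [hs.2, hsh.2]⟩)
    have hne : (𝓝[Ioo δ sh] sh).NeBot := right_nhdsWithin_Ioo_neBot hδsh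
    refine ge_of_tendsto hc2 ?_
    filter_upwards [self_mem_nhdsWithin] with s hs
    exact (hbefore s hs.1.le hs.2 x hx hxa').le
  have hfib : ∀ s, δ ≤ s → s ≤ sh → ∀ x ∈ Dom i0, x i0 = a → -e ≤ Dv (s, x) := by
    intro s h1 h2 x hx hxa'
    rcases lt_or_eq_of_le h2 with h | h
    · exact (hbefore s h1 h x hx hxa').le
    · rw [h]; exact hat x hx hxa'
  -- uniform continuity
  have hKc : IsCompact (Icc 0 (2 * S) ×ˢ Dom i0) := isCompact_Icc.prod (isCompact_Dom i0)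
  have huc := hKc.uniformContinuousOn_of_continuous
    (hDc.mono (prod_mono Subset.rfl (subset_univ _)))
  rw [Metric.uniformContinuousOn_iff] at huc
  obtain ⟨r0, hr0, huc⟩ := huc e he0
  obtain ⟨r, hr, hr1, hr2, hr3⟩ : ∃ r : ℝ, 0 < r ∧ r < r0 ∧ r ≤ S ∧ r < 1 := by
    refine ⟨min (min (r0 / 2) S) (1 / 2), by positivity, ?_, ?_, ?_⟩
    · exact ((min_le_left _ _).trans (min_le_left _ _)).trans_lt (by linarith)
    · exact (min_le_left _ _).trans (min_le_right _ _)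
    · exact (min_le_right _ _).trans_lt (by norm_num)
  have hnear : ∀ s, δ ≤ s → s ≤ sh + r → ∀ x ∈ Dom i0, |x i0 - a| ≤ r →
      Dv (min s sh, x + EuclideanSpace.single i0 (a - x i0)) - e < Dv (s, x) ∧
      (x + EuclideanSpace.single i0 (a - x i0) : E n) ∈ Dom i0 ∧
      (x + EuclideanSpace.single i0 (a - x i0) : E n) i0 = a := by
    intro s h1 h2 x hx hxr
    have hx0 : (x + EuclideanSpace.single i0 (a - x i0) : E n) i0 = a := by simp
    have hxD : (x + EuclideanSpace.single i0 (a - x i0) : E n) ∈ Dom i0 :=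
      ⟨by rw [zeta_add_single]; exact hx.1, by rw [hx0]; linarith⟩
    refine ⟨?_, hxD, hx0⟩
    have h3 := huc (s, x) ⟨⟨by linarith, by linarith [hsh.2]⟩, hx⟩
      (min s sh, x + EuclideanSpace.single i0 (a - x i0))
      ⟨⟨by rw [le_min_iff]; constructor <;> linarith, (min_le_right _ _).trans
        (by linarith [hsh.2])⟩, hxD⟩ (by
        rw [Prod.dist_eq]
        refine max_lt ?_ ?_
        · rw [Real.dist_eq]
          rcases le_total s sh with h | h
          · rw [min_eq_left h]; simpa using hr0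
          · rw [min_eq_right h, abs_of_nonneg (by linarith)]; linarith
        · rw [dist_eq_norm]
          have : x - (x + EuclideanSpace.single i0 (a - x i0)) =
              -(EuclideanSpace.single i0 (a - x i0) : E n) := by abel
          rw [this, norm_neg, PiLp.norm_single, Real.norm_eq_abs, abs_sub_comm]
          linarith)
    rw [Real.dist_eq] at h3
    have := (abs_lt.mp h3).1
    linarith
  have hnear2 : ∀ s, δ ≤ s → s ≤ sh + r → ∀ x ∈ Dom i0, |x i0 - a| ≤ r →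
      -(2 * e) ≤ Dv (s, x) := by
    intro s h1 h2 x hx hxr
    obtain ⟨h3, h4, h5⟩ := hnear s h1 h2 x hx hxr
    have := hfib (min s sh) (le_min h1 hsh.1) (min_le_right _ _) _ h4 h5
    linarith
  -- lower bound on Dv from |v| ≤ M
  have hlow : ∀ s ∈ Icc 0 (2 * S), ∀ x ∈ Dom i0, -(M + 1) ≤ Dv (s, x) := by
    intro s hs x hx
    have h1 := (abs_le.mp (hM s hs x hx)).1
    have h2 : WW i0 l Λ θ δ (s, x) ≤ 1 := WW_le hs.1 (by simp only; linarith [hs.2])
    simp only [hDv]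
    linarith
  -- the penalty
  set κ : ℝ := 2 * (M + 2) / (e * r) with hκ
  set N : ℝ := (M + 2) / r ^ 2 with hN
  have hκ0 : 0 ≤ κ := by positivity
  have hN0 : 0 ≤ N := by positivity
  set Ψ : ℝ × E n → ℝ := fun q => Dv q + e / 2 * Real.exp (κ * (q.1 - sh)) + N * (q.2 i0 - a) ^ 2
    with hΨ
  have hZ2 : IsCompact (Icc δ (sh + r) ×ˢ (Dom i0 ∩ {x : E n | |x i0 - a| ≤ r})) :=
    isCompact_Icc.prod ((isCompact_Dom i0).inter_right
      (isClosed_le ((continuous_coord i0).sub continuous_const).abs continuous_const))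
  have hsub2 : Icc δ (sh + r) ×ˢ (Dom i0 ∩ {x : E n | |x i0 - a| ≤ r}) ⊆
        Icc 0 (2 * S) ×ˢ (univ : Set (E n)) := by
    rintro ⟨s, x⟩ ⟨hs, -⟩
    exact ⟨⟨by linarith [hs.1], by linarith [hs.2, hsh.2]⟩, mem_univ _⟩
  have hΨc : ContinuousOn Ψ (Icc δ (sh + r) ×ˢ (Dom i0 ∩ {x : E n | |x i0 - a| ≤ r})) := by
    have h1 := hDc.mono hsub2
    have h2 : Continuous (fun q : ℝ × E n => e / 2 * Real.exp (κ * (q.1 - sh))) := by fun_prop
    have h3 : Continuous (fun q : ℝ × E n => N * (q.2 i0 - a) ^ 2) :=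
      continuous_const.mul ((((continuous_coord i0).comp continuous_snd).sub
        continuous_const).pow 2)
    exact (h1.add h2.continuousOn).add h3.continuousOn
  have hzmem : (sh, xh) ∈ Icc δ (sh + r) ×ˢ (Dom i0 ∩ {x : E n | |x i0 - a| ≤ r}) :=
    ⟨⟨hsh.1, by linarith⟩, hxh, by
      show |xh i0 - a| ≤ r
      rw [show xh i0 = a from hxha]; simpa using hr.le⟩
  obtain ⟨⟨s2, x2⟩, hmem2, hmin2⟩ := hZ2.exists_isMinOn ⟨_, hzmem⟩ hΨc
  have hΨneg : Ψ (s2, x2) < 0 := by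
    refine lt_of_le_of_lt (hmin2 hzmem) ?_
    simp only [hΨ]
    rw [show xh i0 = a from hxha]
    simp only [sub_self, mul_zero, Real.exp_zero]
    nlinarith
  obtain ⟨hs2, hx2D, hx2r⟩ := hmem2
  simp only [mem_ofPred_eq] at hx2r
  simp only at hs2 hx2D
  have hs2S : s2 ∈ Icc 0 (2 * S) := ⟨by linarith [hs2.1], by linarith [hs2.2, hsh.2]⟩
  have hlow2 := hlow s2 hs2S x2 hx2D
  have hpos1 : 0 < e / 2 * Real.exp (κ * (s2 - sh)) := by positivity
  have hpos2 : 0 ≤ N * (x2 i0 - a) ^ 2 := by positivity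
  -- the minimum is in the interior
  have hne1 : δ ≠ s2 := by
    intro h
    obtain ⟨h3, h4, h5⟩ := hnear s2 hs2.1 hs2.2 x2 hx2D hx2r
    have h6 : min s2 sh = δ := by rw [← h]; exact min_eq_left hsh.1
    rw [h6] at h3
    have h7 := hstart _ h4 h5
    simp only [hΨ] at hΨneg
    linarith
  have hne2 : s2 ≠ sh + r := by
    intro h
    have h3 : κ * r + 1 ≤ Real.exp (κ * (s2 - sh)) := by
      have : κ * (s2 - sh) = κ * r := by rw [h]; ring
      rw [this]; exact Real.add_one_le_exp _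
    have h4 : κ * r = 2 * (M + 2) / e := by rw [hκ]; field_simp
    have h5 : e / 2 * (κ * r) = M + 2 := by rw [h4]; field_simp
    have h6 : e / 2 * (κ * r + 1) ≤ e / 2 * Real.exp (κ * (s2 - sh)) :=
      mul_le_mul_of_nonneg_left h3 (by positivity)
    simp only [hΨ] at hΨneg
    linarith
  have hne3 : zeta i0 x2 ≠ 0 := by
    intro h
    have h1 := (abs_le.mp (hM s2 hs2S x2 hx2D)).1
    have h2 : WW i0 l Λ θ δ (s2, x2) ≤ 1 - (M + 3) := by
      have h3 : M + 3 ≤ AA l Λ θ δ s2 (zeta i0 x2) := by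
        rw [AA, h]
        have hΛ0 : 0 ≤ Λ := by rw [hΛ]; have := hC.K0; positivity
        have h4 : M + 2 ≤ l + Λ * s2 - θ * 0 ^ 2 * mm δ s2 := by
          rw [hl]
          have : 0 ≤ Λ * s2 := mul_nonneg hΛ0 hs2S.1
          linarith
        have h5 := Real.add_one_le_exp (M + 2)
        have h6 := Real.exp_le_exp.mpr h4
        linarith
      rw [WW]
      simp only
      nlinarith [hs2S.1, hs2S.2]
    simp only [hΨ, hDv] at hΨneg
    linarith
  have hne4 : |x2 i0 - a| ≠ r := by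
    intro h
    have h3 : (x2 i0 - a) ^ 2 = r ^ 2 := by rw [← sq_abs, h]
    have h4 : N * (x2 i0 - a) ^ 2 = M + 2 := by rw [h3, hN]; field_simp
    simp only [hΨ] at hΨneg
    linarith
  have hopen : IsOpen {q : ℝ × E n | D.T - (sh + r) < q.1 ∧ q.1 < D.T - δ ∧ 0 < zeta i0 q.2 ∧
      |q.2 i0 - a| < r} := by
    have hz : Continuous (fun q : ℝ × E n => zeta i0 q.2) :=
      (continuous_zeta i0).comp continuous_snd
    have hx : Continuous (fun q : ℝ × E n => |q.2 i0 - a|) :=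
      (((continuous_coord i0).comp continuous_snd).sub continuous_const).abs
    exact (isOpen_lt continuous_const continuous_fst).inter
      ((isOpen_lt continuous_fst continuous_const).inter
        ((isOpen_lt continuous_const hz).inter (isOpen_lt hx continuous_const)))
  have hq : (D.T - s2, x2) ∈ {q : ℝ × E n | D.T - (sh + r) < q.1 ∧ q.1 < D.T - δ ∧
      0 < zeta i0 q.2 ∧ |q.2 i0 - a| < r} := by
    refine ⟨?_, ?_, lt_of_le_of_ne hx2D.1 (Ne.symm hne3), lt_of_le_of_ne hx2r hne4⟩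
    · have := lt_of_le_of_ne hs2.2 hne2; simp only; linarith
    · have := lt_of_le_of_ne hs2.1 hne1; simp only; linarith
  have hloc : IsLocalMin (fun q : ℝ × E n => v q - phi i0 D.T l Λ θ δ (e / 2) κ sh N a q)
      (D.T - s2, x2) := by
    filter_upwards [hopen.mem_nhds hq] with q hq'
    obtain ⟨h1, h2, h3, h4⟩ := hq'
    have h5 : (D.T - q.1, q.2) ∈ Icc δ (sh + r) ×ˢ (Dom i0 ∩ {x : E n | |x i0 - a| ≤ r}) := by
      refine ⟨⟨by simp only; linarith, by simp only; linarith⟩, ⟨h3.le, ?_⟩, h4.le⟩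
      have h6 : |q.2 i0| ≤ |q.2 i0 - a| + |a| := by
        have := abs_add_le (q.2 i0 - a) a
        rwa [sub_add_cancel] at this
      linarith
    have h6 : Ψ (s2, x2) ≤ Ψ (D.T - q.1, q.2) := hmin2 h5
    have key : ∀ (s : ℝ) (x : E n), Ψ (s, x) =
        v (D.T - s, x) - phi i0 D.T l Λ θ δ (e / 2) κ sh N a (D.T - s, x) := by
      intro s x
      simp only [hΨ, hDv, WW, phi, tst, PP, sub_sub_cancel]
      ring
    rw [key, key, sub_sub_cancel] at h6
    exact h6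
  have ht : D.T - s2 ∈ Icc 0 D.T := ⟨by linarith [hs2S.2], by linarith [hs2S.1]⟩
  have hsup := hv.super _ (contDiff_phi i0 hδ) (D.T - s2, x2)
    ⟨by simp only; linarith [hs2S.2], by simp only; linarith [hs2.1]⟩ hloc
  have htest := test_ineq D i0 (T := D.T) (l := l) (Λ := Λ) (θ := θ) (δ := δ) (η := e / 2)
    (κ := κ) (s0 := sh) (N := N) (a := a) (K := K) (t := D.T - s2) (x := x2) hδ hC.K0 hθ hθK
    (by rw [hl]; linarith) hΛ (by positivity) hκ0 (by rw [sub_sub_cancel]; exact hs2.1)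
    (by rw [sub_sub_cancel]; linarith [hs2S.2]) hx2D.1 hx2D.2 (hC.b0 _ ht) (hC.bL _ ht _)
    (hC.σK _ ht _) (hC.b1 _ ht _) (hC.σ1 _ ht _)
  rw [sub_sub_cancel] at htest
  have hDv2 := hnear2 s2 hs2.1 hs2.2 x2 hx2D hx2r
  have hGv : G (WW i0 l Λ θ δ (s2, x2)) - 4 * √(2 * e) ≤ G (v (D.T - s2, x2)) := by
    refine (G_sub _ _ (by positivity)).trans (G_mono ?_)
    simp only [hDv] at hDv2
    linarith
  have hsqrt : √(2 * e) ≤ δ / 100 := by
    rw [Real.sqrt_le_left (by positivity)]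
    linarith
  have hWW : WW i0 l Λ θ δ (s2, x2) = s2 ^ 2 / 4 - AA l Λ θ δ s2 (zeta i0 x2) := rfl
  rw [hWW] at hGv
  have hs2δ := hs2.1
  linarith

end Pool.Agent.Lib_helper39.Visc
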