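import Mathlib

/-!
# Viscosity solutions of semilinear PDEs under growth bounds only: definitions

The equation `∂_t u + L u + g(t, x, u, σ* ∇u) = 0`, `u(T, ·) = h`, on `[0, T] × ℝⁿ`.
-/

set_option autoImplicit false

namespace Pool.Agent.Lib_helper39.Visc

open Set Filter Topology

/-- The Euclidean space `ℝⁿ`. -/
abbrev E (n : ℕ) : Type := EuclideanSpace ℝ (Fin n)

/-- The Euclidean (Frobenius) norm of a matrix. -/
noncomputable def frob {n d : ℕ} (A : Matrix (Fin n) (Fin d) ℝ) : ℝ :=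
  Real.sqrt (∑ i, ∑ j, A i j ^ 2)

/-- The data `T, b, σ, g, h` of the equation (E). -/
structure EqData (n d : ℕ) where
  /-- the terminal time -/
  T : ℝ
  /-- the drift -/
  b : ℝ → E n → E n
  /-- the diffusion matrix -/
  σ : ℝ → E n → Matrix (Fin n) (Fin d) ℝ
  /-- the nonlinearity `g(t, x, y, z)` -/
  g : ℝ → E n → ℝ → E d → ℝ
  /-- the terminal value -/
  h : E n → ℝ

/-- The hypotheses of Q1: `T > 0`, the maps `b, σ, g` are jointly continuous on `[0, T] × ⋯`, `h` is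
continuous, `K > 0`, `k ≥ 0`, `1 < α ≤ 2`, `1 ≤ p < α* = α / (α - 1)`, and (A1), (G1), (G2) hold. -/
structure EqData.Hyp {n d : ℕ} (D : EqData n d) (K k α p : ℝ) : Prop where
  T_pos : 0 < D.T
  b_cont : ContinuousOn (fun q : ℝ × E n => D.b q.1 q.2) (Icc 0 D.T ×ˢ univ)
  σ_cont : ContinuousOn (fun q : ℝ × E n => D.σ q.1 q.2) (Icc 0 D.T ×ˢ univ)
  g_cont : ContinuousOn (fun q : ℝ × E n × ℝ × E d => D.g q.1 q.2.1 q.2.2.1 q.2.2.2)
    (Icc 0 D.T ×ˢ univ)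
  h_cont : Continuous D.h
  K_pos : 0 < K
  k_nonneg : 0 ≤ k
  one_lt_α : 1 < α
  α_le_two : α ≤ 2
  one_le_p : 1 ≤ p
  p_lt : p < α / (α - 1)
  A1 : ∀ t ∈ Icc 0 D.T, ∀ x x' : E n, ‖D.b t 0‖ + frob (D.σ t x) ≤ K ∧
    ‖D.b t x - D.b t x'‖ + frob (D.σ t x - D.σ t x') ≤ K * ‖x - x'‖
  G1 : ∀ t ∈ Icc 0 D.T, ∀ (x : E n) (y : ℝ) (z : E d),
    Real.sign y * D.g t x y z ≤ k * (1 + ‖x‖ ^ p + |y| + ‖z‖ ^ α)
  G2 : ∀ t ∈ Icc 0 D.T, ∀ (x : E n) (y : ℝ) (z : E d),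
    |D.g t x y z| + |D.h x| ≤
      k * (1 + ‖x‖ ^ p + Real.exp (k * |y| ^ (2 / (α / (α - 1)))) + ‖z‖ ^ 2)

section Operator

variable {n d : ℕ}

/-- The time derivative `∂_t φ`. -/
noncomputable def dt (φ : ℝ × E n → ℝ) (q : ℝ × E n) : ℝ := deriv (fun s => φ (s, q.2)) q.1

/-- The spatial gradient `∇_x φ`. -/
noncomputable def gradX (φ : ℝ × E n → ℝ) (q : ℝ × E n) : E n :=
  gradient (fun x => φ (q.1, x)) q.2

/-- The Hessian matrix `D_x² φ`. -/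
noncomputable def hessX (φ : ℝ × E n → ℝ) (q : ℝ × E n) : Matrix (Fin n) (Fin n) ℝ :=
  Matrix.of fun i j => iteratedFDeriv ℝ 2 (fun x => φ (q.1, x)) q.2
    ![EuclideanSpace.single i 1, EuclideanSpace.single j 1]

/-- `L φ = b · ∇_x φ + (1/2) tr (σ σ* D_x² φ)` at the point `q = (t, x)`. -/
noncomputable def EqData.L (D : EqData n d) (φ : ℝ × E n → ℝ) (q : ℝ × E n) : ℝ :=
  inner ℝ (D.b q.1 q.2) (gradX φ q) +
    1 / 2 * (D.σ q.1 q.2 * (D.σ q.1 q.2).transpose * hessX φ q).trace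

/-- `∂_t φ + L φ + g(t, x, y, σ* ∇_x φ)` at the point `q = (t, x)`. -/
noncomputable def EqData.F (D : EqData n d) (y : ℝ) (φ : ℝ × E n → ℝ) (q : ℝ × E n) : ℝ :=
  dt φ q + D.L φ q +
    D.g q.1 q.2 y (WithLp.toLp 2 ((D.σ q.1 q.2).transpose.mulVec (gradX φ q)))

/-- `u` is a continuous viscosity solution of (E) on `[t₁, T] × ℝⁿ` (for `t₁ = 0` this is the
notion of Q1): `u` is continuous on `[t₁, T] × ℝⁿ`, `u(T, ·) = h`, and the inequalities for a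
supersolution and for a subsolution hold at the points of `(t₁, T) × ℝⁿ`. -/
structure EqData.IsViscositySolution (D : EqData n d) (t₁ : ℝ) (u : ℝ × E n → ℝ) : Prop where
  cont : ContinuousOn u (Icc t₁ D.T ×ˢ univ)
  terminal : ∀ x, u (D.T, x) = D.h x
  super : ∀ φ : ℝ × E n → ℝ, ContDiff ℝ ((⊤ : ℕ∞) : WithTop ℕ∞) φ → ∀ q : ℝ × E n,
    q.1 ∈ Ioo t₁ D.T → IsLocalMin (fun r => u r - φ r) q → D.F (u q) φ q ≤ 0
  sub : ∀ φ : ℝ × E n → ℝ, ContDiff ℝ ((⊤ : ℕ∞) : WithTop ℕ∞) φ → ∀ q : ℝ × E n,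
    q.1 ∈ Ioo t₁ D.T → IsLocalMax (fun r => u r - φ r) q → 0 ≤ D.F (u q) φ q

end Operator

/-- The function `2 sgn(y) min(√|y|, 1)`. -/
noncomputable def G (y : ℝ) : ℝ := 2 * (min (√y) 1 - min (√(-y)) 1)

/-- The data with arbitrary coefficients `b`, `σ`, with `g(t, x, y, z) = 2 sgn(y) min(√|y|, 1)`
and `h(x) = sin x₁`. -/
noncomputable def cex (n d : ℕ) (hn : 0 < n) (T : ℝ) (b : ℝ → E n → E n)
    (σ : ℝ → E n → Matrix (Fin n) (Fin d) ℝ) : EqData n d where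
  T := T
  b := b
  σ := σ
  g := fun _ _ y _ => G y
  h := fun x => Real.sin (x ⟨0, hn⟩)

end Pool.Agent.Lib_helper39.Visc
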