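import Pool.Agent.Lib_helper39.Visc.Comp

/-!
# No viscosity solution
-/

set_option autoImplicit false

namespace Pool.Agent.Lib_helper39.Visc

open Set Filter Topology

variable {n d : ℕ}

lemma zeta_single (i0 : Fin n) (a : ℝ) : zeta i0 (EuclideanSpace.single i0 a : E n) = 1 := by
  rw [zeta]
  simp

/-- The lower bound on the axis, uniform in the positive terminal value. -/
theorem lower_axis (D : EqData n d) (i0 : Fin n) {K : ℝ} (hC : Coef D i0 K) {t₁ : ℝ}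
    {v : ℝ × E n → ℝ} (hv : IsSuper D t₁ v) {S M : ℝ} (hS0 : 0 < S) (hS1 : 2 * S ≤ 1)
    (hS2 : 2 * S < D.T - t₁) (hS3 : 2 * S ≤ D.T)
    (hM : ∀ s ∈ Icc 0 (2 * S), ∀ x ∈ Dom i0, |v (D.T - s, x)| ≤ M)
    {l θ Λ : ℝ} (hl : l = M + 2) (hθ : 0 < θ) (hθK : 64 * θ * K ^ 2 ≤ 1)
    (hΛ : Λ = 8 * Real.exp 160 + 2 * θ * (16 * K + 2 * K ^ 2) ^ 2)
    {s : ℝ} (hs0 : 0 < s) (hsS : s ≤ S) (hs : 384 * Real.exp (l + Λ) * s ≤ θ ^ 3)
    {a : ℝ} (ha : |a| ≤ 1) (hpos : ∃ ε > 0, ∀ x ∈ Dom i0, x i0 = a → ε ≤ v (D.T, x)) :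
    s ^ 2 / 8 ≤ v (D.T - s, EuclideanSpace.single i0 a) := by
  obtain ⟨ε, hε, hεv⟩ := hpos
  have hvc : ContinuousOn (fun r : ℝ × E n => v (D.T - r.1, r.2))
      (Icc 0 (2 * S) ×ˢ (univ : Set (E n))) := by
    refine hv.cont.comp (t := Icc t₁ D.T ×ˢ univ) (by fun_prop) ?_
    rintro ⟨s, x⟩ ⟨hs, -⟩
    exact ⟨⟨by simp only; linarith [hs.2], by simp only; linarith [hs.1]⟩, mem_univ _⟩
  have hKc : IsCompact (Icc 0 (2 * S) ×ˢ Dom i0) := isCompact_Icc.prod (isCompact_Dom i0)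
  have huc := hKc.uniformContinuousOn_of_continuous
    (hvc.mono (prod_mono Subset.rfl (subset_univ _)))
  rw [Metric.uniformContinuousOn_iff] at huc
  obtain ⟨r0, hr0, huc⟩ := huc (ε / 2) (by positivity)
  obtain ⟨δ, hδ, hδ1, hδ2, hδ3⟩ : ∃ δ : ℝ, 0 < δ ∧ δ < r0 ∧ δ ≤ s ∧ δ ≤ ε := by
    refine ⟨min (min (r0 / 2) s) ε, by positivity, ?_, ?_, ?_⟩
    · exact ((min_le_left _ _).trans (min_le_left _ _)).trans_lt (by linarith)
    · exact (min_le_left _ _).trans (min_le_right _ _)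
    · exact min_le_right _ _
  have hD : (EuclideanSpace.single i0 a : E n) ∈ Dom i0 :=
    ⟨by rw [zeta_single]; norm_num, by simp; linarith⟩
  have hinit : ∀ x ∈ Dom i0, x i0 = a → ε / 2 ≤ v (D.T - δ, x) := by
    intro x hx hxa
    have h1 := huc (δ, x) ⟨⟨hδ.le, by linarith⟩, hx⟩ (0, x) ⟨⟨le_rfl, by linarith⟩, hx⟩ (by
      rw [Prod.dist_eq]
      simp only [dist_self]
      rw [Real.dist_eq, sub_zero, abs_of_pos hδ]
      exact max_lt hδ1 hr0)
    rw [Real.dist_eq] at h1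
    have h2 := (abs_lt.mp h1).1
    simp only [sub_zero] at h2
    linarith [hεv x hx hxa]
  have hmain := lower D i0 hC hv hS0 hS1 hS2 hS3 hM hl hθ hθK hΛ ha hε hδ (hδ2.trans hsS) hδ3
    hinit s ⟨hδ2, hsS⟩ _ hD (by simp)
  refine le_trans ?_ hmain
  rw [WW]
  simp only [zeta_single]
  -- the exponential is small
  have hM0 : 0 ≤ M := (abs_nonneg _).trans (hM 0 ⟨le_rfl, by linarith⟩ _ hD)
  have hΛ0 : 0 ≤ Λ := by rw [hΛ]; have := hC.K0; positivity
  have h1 : AA l Λ θ δ s 1 ≤ Real.exp (l + Λ) * Real.exp (-(θ / (2 * s))) := by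
    rw [AA, ← Real.exp_add]
    apply Real.exp_le_exp.mpr
    have h2 : θ / (2 * s) ≤ θ * 1 ^ 2 * mm δ s := by
      rw [div_le_iff₀ (by positivity)]
      have := mm_ge' hδ hδ2
      nlinarith
    have h3 : Λ * s ≤ Λ := by nlinarith
    linarith
  have h2 : Real.exp (-(θ / (2 * s))) ≤ 48 * s ^ 3 / θ ^ 3 := by
    have h3 : (θ / (2 * s)) ^ 3 / 6 ≤ Real.exp (θ / (2 * s)) := by
      have := Real.pow_div_factorial_le_exp (θ / (2 * s)) (by positivity) 3
      simpa [Nat.factorial] using this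
    rw [Real.exp_neg]
    have h4 : 0 < (θ / (2 * s)) ^ 3 / 6 := by positivity
    refine (inv_anti₀ h4 h3).trans (le_of_eq ?_)
    field_simp
    norm_num
  have h3 : Real.exp (l + Λ) * Real.exp (-(θ / (2 * s))) ≤ s ^ 2 / 8 := by
    have h4 : Real.exp (l + Λ) * Real.exp (-(θ / (2 * s))) ≤
        Real.exp (l + Λ) * (48 * s ^ 3 / θ ^ 3) :=
      mul_le_mul_of_nonneg_left h2 (Real.exp_pos _).le
    refine h4.trans ?_
    rw [mul_div_assoc', div_le_iff₀ (by positivity)]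
    nlinarith [mul_le_mul_of_nonneg_left hs (sq_nonneg s)]
  linarith

lemma dt_neg (φ : ℝ × E n → ℝ) (q : ℝ × E n) : dt (fun r => -φ r) q = -dt φ q := by
  rw [dt, dt]
  exact deriv.fun_neg

lemma L_neg (D : EqData n d) (φ : ℝ × E n → ℝ) (q : ℝ × E n) :
    D.L (fun r => -φ r) q = -D.L φ q := by
  have h1 : gradX (fun r => -φ r) q = -gradX φ q := by
    rw [gradX, gradX, gradient, gradient]
    rw [fderiv_fun_neg, map_neg]
  have h2 : hessX (fun r => -φ r) q = -hessX φ q := by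
    ext i j
    rw [hessX, Matrix.neg_apply, hessX, Matrix.of_apply, Matrix.of_apply]
    have : (fun x => -φ (q.1, x)) = -(fun x => φ (q.1, x)) := rfl
    rw [this, iteratedFDeriv_neg_apply]
    rfl
  rw [EqData.L, EqData.L, h1, h2, inner_neg_right, Matrix.mul_neg, Matrix.trace_neg]
  ring

theorem no_solution (n d : ℕ) (hn : 0 < n) (T t₁ : ℝ) (hT : 0 < T) (ht₁ : t₁ < T)
    (b : ℝ → E n → E n) (σ : ℝ → E n → Matrix (Fin n) (Fin d) ℝ) (K : ℝ)
    (hC : Coef (cex n d hn T b σ) ⟨0, hn⟩ K) (u : ℝ × E n → ℝ) :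
    ¬ (cex n d hn T b σ).IsViscositySolution t₁ u := by
  intro hu
  set D := cex n d hn T b σ with hDdef
  set i0 : Fin n := ⟨0, hn⟩ with hi0
  have hDT : D.T = T := rfl
  have hsup1 : IsSuper D t₁ u := ⟨hu.cont, fun φ hφ q hq hloc => hu.super φ hφ q hq hloc⟩
  have hsup2 : IsSuper D t₁ (fun r => -u r) := by
    refine ⟨hu.cont.neg, fun φ hφ q hq hloc => ?_⟩
    have h1 := hu.sub (fun r => -φ r) hφ.neg q hq (by
      have h2 := hloc.neg
      refine h2.congr ?_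
      filter_upwards with r
      ring)
    have h3 : D.F (u q) (fun r => -φ r) q = dt (fun r => -φ r) q + D.L (fun r => -φ r) q +
      G (u q) := rfl
    rw [h3, dt_neg, L_neg] at h1
    rw [G_neg]
    linarith
  -- the range of times
  obtain ⟨S, hS0, hS1, hS2, hS3⟩ : ∃ S : ℝ, 0 < S ∧ 2 * S ≤ 1 ∧ 2 * S < D.T - t₁ ∧
      2 * S ≤ D.T := by
    rw [hDT]
    have h1 : 0 < T - t₁ := by linarith
    refine ⟨min (min (1 / 2) ((T - t₁) / 4)) (T / 2), by positivity, ?_, ?_, ?_⟩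
    · have := (min_le_left (min (1 / 2) ((T - t₁) / 4)) (T / 2)).trans (min_le_left _ _)
      linarith
    · have := (min_le_left (min (1 / 2) ((T - t₁) / 4)) (T / 2)).trans (min_le_right _ _)
      linarith
    · have := min_le_right (min (1 / 2) ((T - t₁) / 4)) (T / 2)
      linarith
  have hvc : ContinuousOn (fun r : ℝ × E n => u (D.T - r.1, r.2))
      (Icc 0 (2 * S) ×ˢ (univ : Set (E n))) := by
    refine hu.cont.comp (t := Icc t₁ D.T ×ˢ univ) (by fun_prop) ?_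
    rintro ⟨s, x⟩ ⟨hs, -⟩
    exact ⟨⟨by simp only; linarith [hs.2], by simp only; linarith [hs.1]⟩, mem_univ _⟩
  have hKc : IsCompact (Icc 0 (2 * S) ×ˢ Dom i0) := isCompact_Icc.prod (isCompact_Dom i0)
  obtain ⟨M, hM⟩ := hKc.exists_bound_of_continuousOn
    (hvc.mono (prod_mono Subset.rfl (subset_univ _)))
  have hM1 : ∀ s ∈ Icc 0 (2 * S), ∀ x ∈ Dom i0, |u (D.T - s, x)| ≤ M := fun s hs x hx =>
    hM (s, x) ⟨hs, hx⟩
  have hM2 : ∀ s ∈ Icc 0 (2 * S), ∀ x ∈ Dom i0, |(fun r => -u r) (D.T - s, x)| ≤ M :=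
    fun s hs x hx => by simp only [abs_neg]; exact hM1 s hs x hx
  -- the constants
  obtain ⟨θ, hθ, hθK⟩ : ∃ θ : ℝ, 0 < θ ∧ 64 * θ * K ^ 2 ≤ 1 := by
    refine ⟨1 / (64 * (K ^ 2 + 1)), by positivity, ?_⟩
    have : 64 * (1 / (64 * (K ^ 2 + 1))) * K ^ 2 = K ^ 2 / (K ^ 2 + 1) := by field_simp
    rw [this, div_le_one (by positivity)]
    linarith
  obtain ⟨s, hs0, hsS, hs⟩ : ∃ s : ℝ, 0 < s ∧ s ≤ S ∧ 384 * Real.exp (M + 2 +
      (8 * Real.exp 160 + 2 * θ * (16 * K + 2 * K ^ 2) ^ 2)) * s ≤ θ ^ 3 := by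
    set c := 384 * Real.exp (M + 2 + (8 * Real.exp 160 + 2 * θ * (16 * K + 2 * K ^ 2) ^ 2))
    have hc : 0 < c := by positivity
    refine ⟨min S (θ ^ 3 / c), by positivity, min_le_left _ _, ?_⟩
    calc c * min S (θ ^ 3 / c) ≤ c * (θ ^ 3 / c) :=
          mul_le_mul_of_nonneg_left (min_le_right _ _) hc.le
      _ = θ ^ 3 := by field_simp
  have hpos : ∀ a : ℝ, 0 < a → a ≤ 1 → s ^ 2 / 8 ≤ u (D.T - s, EuclideanSpace.single i0 a) := by
    intro a ha ha1
    refine lower_axis D i0 hC hsup1 hS0 hS1 hS2 hS3 hM1 rfl hθ hθK rfl hs0 hsS hs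
      (by rw [abs_of_pos ha]; exact ha1) ⟨Real.sin a, Real.sin_pos_of_pos_of_lt_pi ha
        (by linarith [Real.pi_gt_three]), fun x _ hx => ?_⟩
    rw [hu.terminal]
    show Real.sin a ≤ Real.sin (x i0)
    rw [hx]
  have hneg : ∀ a : ℝ, a < 0 → -1 ≤ a → u (D.T - s, EuclideanSpace.single i0 a) ≤ -(s ^ 2 / 8) := by
    intro a ha ha1
    have h1 := lower_axis D i0 hC hsup2 hS0 hS1 hS2 hS3 hM2 rfl hθ hθK rfl hs0 hsS hs (a := a)
      (by rw [abs_of_neg ha]; linarith) ⟨-Real.sin a, by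
        have := Real.sin_neg_of_neg_of_neg_pi_lt ha (by linarith [Real.pi_gt_three])
        linarith, fun x _ hx => by
        show -Real.sin a ≤ -u (D.T, x)
        rw [hu.terminal]
        show -Real.sin a ≤ -Real.sin (x i0)
        rw [hx]⟩
    have h2 : s ^ 2 / 8 ≤ -u (D.T - s, EuclideanSpace.single i0 a) := h1
    linarith
  -- continuity on the axis
  have hcs : Continuous (fun s : ℝ => (EuclideanSpace.single i0 s : E n)) := by
    have h : Continuous (fun s : ℝ => (Pi.single i0 s : Fin n → ℝ)) := by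
      refine continuous_pi fun i => ?_
      by_cases hi : i = i0
      · subst hi
        simp only [Pi.single_eq_same]
        exact continuous_id
      · simp only [Pi.single_eq_of_ne hi]
        exact continuous_const
    exact (PiLp.continuous_toLp 2 (fun _ : Fin n => ℝ)).comp h
  have hc0 : Continuous (fun a : ℝ => u (D.T - s, EuclideanSpace.single i0 a)) := by
    have h2 : Continuous (fun a : ℝ => ((D.T - s, EuclideanSpace.single i0 a) : ℝ × E n)) :=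
      continuous_const.prodMk hcs
    rw [← continuousOn_univ]
    exact hu.cont.comp h2.continuousOn (fun a _ => ⟨⟨by linarith, by linarith⟩, mem_univ _⟩)
  have ha : s ^ 2 / 8 ≤ u (D.T - s, EuclideanSpace.single i0 (0:ℝ)) := by
    have h1 : Tendsto (fun a : ℝ => u (D.T - s, EuclideanSpace.single i0 a))
        (𝓝[>] 0) (𝓝 (u (D.T - s, EuclideanSpace.single i0 (0:ℝ)))) :=
      (hc0.tendsto 0).mono_left nhdsWithin_le_nhds
    refine ge_of_tendsto h1 ?_
    filter_upwards [Ioo_mem_nhdsGT (show (0:ℝ) < 1 by norm_num)] with a ha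
    exact hpos a ha.1 ha.2.le
  have hb : u (D.T - s, EuclideanSpace.single i0 (0:ℝ)) ≤ -(s ^ 2 / 8) := by
    have h1 : Tendsto (fun a : ℝ => u (D.T - s, EuclideanSpace.single i0 a))
        (𝓝[<] 0) (𝓝 (u (D.T - s, EuclideanSpace.single i0 (0:ℝ)))) :=
      (hc0.tendsto 0).mono_left nhdsWithin_le_nhds
    refine le_of_tendsto h1 ?_
    filter_upwards [Ioo_mem_nhdsLT (show (-1:ℝ) < 0 by norm_num)] with a ha
    exact hneg a ha.2 ha.1.le
  have : 0 < s ^ 2 := by positivity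
  linarith

end Pool.Agent.Lib_helper39.Visc
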