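import Pool.Agent.Lib_helper39.Visc.Calc

/-!
# The operator on the test functions
-/

set_option autoImplicit false

namespace Pool.Agent.Lib_helper39.Visc

open Set Filter Topology Finset

variable {n d : ℕ}

lemma inner_gradient (f : E n → ℝ) (x v : E n) (f' : E n →L[ℝ] ℝ) (h : HasFDerivAt f f' x) :
    inner ℝ v (gradient f x) = f' v := by
  rw [real_inner_comm, gradient, h.fderiv, InnerProductSpace.toDual_symm_apply]

/-- the trace term -/
lemma trace_tst (i0 : Fin n) (S : Matrix (Fin n) (Fin d) ℝ) (hS : ∀ j, S i0 j = 0) (x : E n)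
    (c1 c2 N : ℝ) (H : Matrix (Fin n) (Fin n) ℝ)
    (hH : ∀ i j, H i j = c1 * (-2 * inner ℝ (EuclideanSpace.single i (1:ℝ) : E n)
      (EuclideanSpace.single j (1:ℝ)) + 2 * (EuclideanSpace.single i (1:ℝ) : E n) i0 *
        (EuclideanSpace.single j (1:ℝ) : E n) i0) +
      c2 * (-2 * inner ℝ x (EuclideanSpace.single i (1:ℝ) : E n) +
        2 * x i0 * (EuclideanSpace.single i (1:ℝ) : E n) i0) *
        (-2 * inner ℝ x (EuclideanSpace.single j (1:ℝ) : E n) +
        2 * x i0 * (EuclideanSpace.single j (1:ℝ) : E n) i0) -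
      2 * N * (EuclideanSpace.single i (1:ℝ) : E n) i0 *
        (EuclideanSpace.single j (1:ℝ) : E n) i0) :
    (S * S.transpose * H).trace =
      4 * c2 * ∑ k, (∑ i, S i k * x i) ^ 2 - 2 * c1 * ∑ i, ∑ k, S i k ^ 2 := by
  have e1 : ∀ i, (EuclideanSpace.single i (1:ℝ) : E n) i0 = if i0 = i then 1 else 0 := by
    intro i; simp [PiLp.single_apply]
  have e2 : ∀ i, inner ℝ x (EuclideanSpace.single i (1:ℝ) : E n) = x i := by
    intro i
    rw [EuclideanSpace.inner_single_right]
    simp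
  have e3 : ∀ i j, inner ℝ (EuclideanSpace.single i (1:ℝ) : E n)
      (EuclideanSpace.single j (1:ℝ)) = if i = j then 1 else 0 := by
    intro i j
    rw [EuclideanSpace.inner_single_right]
    simp [PiLp.single_apply, eq_comm]
  have key : ∀ i j, (∑ k, S i k * S j k) * H j i =
      (∑ k, S i k * S j k) * (4 * c2 * (x i * x j) - 2 * c1 * (if i = j then 1 else 0)) := by
    intro i j
    by_cases hi : i = i0
    · subst hi; simp [hS]
    by_cases hj : j = i0
    · subst hj; simp [hS]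
    congr 1
    rw [hH, e1, e1, e2, e2, e3, if_neg (Ne.symm hi), if_neg (Ne.symm hj)]
    by_cases hij : i = j
    · subst hij; simp; ring
    · rw [if_neg hij, if_neg (Ne.symm hij)]; ring
  have h1 : (S * S.transpose * H).trace = ∑ i, ∑ j, (∑ k, S i k * S j k) * H j i := by
    simp only [Matrix.trace, Matrix.diag, Matrix.mul_apply, Matrix.transpose_apply]
  rw [h1]
  simp only [key, mul_sub, sum_sub_distrib]
  congr 1
  · have h2 : ∀ k, (∑ i, S i k * x i) ^ 2 = ∑ i, ∑ j, (S i k * x i) * (S j k * x j) := by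
      intro k
      rw [sq, sum_mul_sum]
    have h3 : ∀ i j, (∑ k, S i k * S j k) * (4 * c2 * (x i * x j)) =
        ∑ k, 4 * c2 * ((S i k * x i) * (S j k * x j)) := by
      intro i j
      rw [sum_mul]
      exact sum_congr rfl fun k _ => by ring
    simp only [h2, h3]
    calc ∑ i, ∑ j, ∑ k, 4 * c2 * ((S i k * x i) * (S j k * x j))
        = ∑ i, ∑ k, ∑ j, 4 * c2 * ((S i k * x i) * (S j k * x j)) :=
          sum_congr rfl fun i _ => sum_comm
      _ = ∑ k, ∑ i, ∑ j, 4 * c2 * ((S i k * x i) * (S j k * x j)) := sum_comm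
      _ = _ := by simp only [mul_sum]
  · have h3 : ∀ i j, (∑ k, S i k * S j k) * (2 * c1 * (if i = j then 1 else 0)) =
        if i = j then 2 * c1 * ∑ k, S i k ^ 2 else 0 := by
      intro i j
      by_cases hij : i = j
      · subst hij
        rw [if_pos rfl, if_pos rfl, mul_one, mul_comm]
        congr 1
        exact sum_congr rfl fun k _ => by ring
      · rw [if_neg hij, if_neg hij, mul_zero, mul_zero]
    simp only [h3, sum_ite_eq, Finset.mem_univ, if_true]
    rw [mul_sum]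

/-- the norm of the other coordinates -/
lemma zeta_eq (i0 : Fin n) (x : E n) : 1 - zeta i0 x = ∑ i, (if i = i0 then 0 else x i ^ 2) := by
  have h1 : ‖x‖ ^ 2 = ∑ i, x i ^ 2 := by
    rw [EuclideanSpace.norm_sq_eq]
    exact sum_congr rfl fun i _ => by rw [Real.norm_eq_abs, sq_abs]
  have h2 : ∑ i, x i ^ 2 = x i0 ^ 2 + ∑ i, (if i = i0 then 0 else x i ^ 2) := by
    have h3 : ∀ i, x i ^ 2 = (if i = i0 then x i0 ^ 2 else 0) + (if i = i0 then 0 else x i ^ 2) := by
      intro i
      by_cases hi : i = i0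
      · subst hi; simp
      · simp [hi]
    rw [sum_congr rfl fun i _ => h3 i, sum_add_distrib]
    simp
  rw [zeta, h1, h2]
  ring

lemma zeta_le_one (i0 : Fin n) (x : E n) : zeta i0 x ≤ 1 := by
  have h := zeta_eq i0 x
  have h2 : 0 ≤ ∑ i, (if i = i0 then 0 else x i ^ 2) :=
    sum_nonneg fun i _ => by split_ifs <;> positivity
  linarith

/-- Cauchy-Schwarz without the first coordinate -/
lemma cs_zeta (i0 : Fin n) (x : E n) (c : Fin n → ℝ) (hc : c i0 = 0) :
    (∑ i, c i * x i) ^ 2 ≤ (∑ i, c i ^ 2) * (1 - zeta i0 x) := by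
  rw [zeta_eq]
  have h1 : ∑ i, c i * x i = ∑ i, c i * (if i = i0 then 0 else x i) := by
    refine sum_congr rfl fun i _ => ?_
    by_cases hi : i = i0
    · subst hi; simp [hc]
    · simp [hi]
  have h2 : ∑ i, (if i = i0 then 0 else x i ^ 2) = ∑ i, (if i = i0 then 0 else x i) ^ 2 := by
    refine sum_congr rfl fun i _ => ?_
    by_cases hi : i = i0
    · simp [hi]
    · simp [hi]
  rw [h1, h2]
  exact sum_mul_sq_le_sq_mul_sq _ _ _

/-- The operator `L` on a test function. -/
lemma L_tst (D : EqData n d) (i0 : Fin n) (P : ℝ → ℝ → ℝ) (p1 p2 : ℝ → ℝ) (N a : ℝ) (t : ℝ)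
    (x : E n) (hp : ∀ z, HasDerivAt (P t) (p1 z) z) (hp1 : ∀ z, HasDerivAt p1 (p2 z) z)
    (hb : D.b t x i0 = 0) (hσ : ∀ j, D.σ t x i0 j = 0) :
    D.L (fun r => tst i0 (P r.1) N a r.2) (t, x) =
      -2 * p1 (zeta i0 x) * inner ℝ x (D.b t x) +
        2 * p2 (zeta i0 x) * ∑ k, (∑ i, D.σ t x i k * x i) ^ 2 -
        p1 (zeta i0 x) * ∑ i, ∑ k, D.σ t x i k ^ 2 := by
  have h1 : inner ℝ (D.b t x) (gradX (fun r : ℝ × E n => tst i0 (P r.1) N a r.2) (t, x)) =
      -2 * p1 (zeta i0 x) * inner ℝ x (D.b t x) := by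
    rw [gradX]
    rw [inner_gradient _ _ _ _ (hasFDerivAt_tst (N := N) (a := a) hp x)]
    simp [dzeta_apply, hb]
    ring
  have h2 := trace_tst i0 (D.σ t x) hσ x (p1 (zeta i0 x)) (p2 (zeta i0 x)) N
    (hessX (fun r : ℝ × E n => tst i0 (P r.1) N a r.2) (t, x)) (fun i j => by
      rw [hessX, Matrix.of_apply]
      exact hess_tst hp hp1 x _ _)
  rw [EqData.L, h1, h2]
  ring

end Pool.Agent.Lib_helper39.Visc
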