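import Pool.Agent.Lib_helper39.Visc.Oper
import Pool.Agent.Lib_helper39.Visc.Barrier

/-!
# The concrete test functions
-/

set_option autoImplicit false

namespace Pool.Agent.Lib_helper39.Visc

open Set Filter Topology

variable {n d : ℕ}

/-- `1 / √(s² + δ²)` -/
noncomputable def mm (δ s : ℝ) : ℝ := (√(s ^ 2 + δ ^ 2))⁻¹

lemma mm_pos {δ : ℝ} (hδ : 0 < δ) (s : ℝ) : 0 < mm δ s :=
  inv_pos.mpr (Real.sqrt_pos.mpr (by positivity))

lemma mm_sq {δ : ℝ} (hδ : 0 < δ) (s : ℝ) : mm δ s ^ 2 * (s ^ 2 + δ ^ 2) = 1 := by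
  have h : 0 < s ^ 2 + δ ^ 2 := by positivity
  rw [mm, inv_pow, Real.sq_sqrt h.le, inv_mul_cancel₀ h.ne']

lemma hasDerivAt_mm {δ : ℝ} (hδ : 0 < δ) (s : ℝ) : HasDerivAt (mm δ) (-(s * mm δ s ^ 3)) s := by
  have h : 0 < s ^ 2 + δ ^ 2 := by positivity
  have h1 : HasDerivAt (fun s : ℝ => s ^ 2 + δ ^ 2) (2 * s) s := by
    simpa using ((hasDerivAt_id s).pow 2).add_const (δ ^ 2)
  have h2 := (h1.sqrt h.ne').inv (Real.sqrt_pos.mpr h).ne'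
  refine h2.congr_deriv ?_
  have h3 : √(s ^ 2 + δ ^ 2) ≠ 0 := (Real.sqrt_pos.mpr h).ne'
  rw [mm]
  field_simp

lemma contDiff_mm {δ : ℝ} (hδ : 0 < δ) : ContDiff ℝ ((⊤ : ℕ∞) : WithTop ℕ∞) (mm δ) := by
  have h : ∀ s : ℝ, s ^ 2 + δ ^ 2 ≠ 0 := fun s => by positivity
  have h1 : ContDiff ℝ ((⊤ : ℕ∞) : WithTop ℕ∞) (fun s : ℝ => s ^ 2 + δ ^ 2) := by fun_prop
  exact (h1.sqrt h).inv fun s => (Real.sqrt_pos.mpr (by positivity)).ne'

lemma mm_le {δ s : ℝ} (hδ : 0 < δ) (hs : 0 < s) : mm δ s * s ≤ 1 := by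
  have h1 := mm_sq hδ s
  have h2 := mm_pos hδ s
  have h3 : (mm δ s * s) ^ 2 ≤ 1 ^ 2 := by
    have : 0 ≤ mm δ s ^ 2 * δ ^ 2 := by positivity
    nlinarith
  exact (abs_le_of_sq_le_sq' h3 (by norm_num)).2

lemma mm_ge {δ s : ℝ} (hδ : 0 < δ) (hs : δ ≤ s) : 1 / 2 ≤ (mm δ s * s) ^ 2 := by
  have h1 := mm_sq hδ s
  have h4 : δ ^ 2 ≤ s ^ 2 := pow_le_pow_left₀ hδ.le hs 2
  have h2 : mm δ s ^ 2 * δ ^ 2 ≤ mm δ s ^ 2 * s ^ 2 := mul_le_mul_of_nonneg_left h4 (by positivity)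
  nlinarith

lemma mm_ge' {δ s : ℝ} (hδ : 0 < δ) (hs : δ ≤ s) : 1 / 2 ≤ mm δ s * s := by
  have h1 := mm_ge hδ hs
  have h2 : 0 < mm δ s * s := mul_pos (mm_pos hδ s) (hδ.trans_le hs)
  nlinarith

lemma mm_ineq1 {δ s : ℝ} (hδ : 0 < δ) (hs : δ ≤ s) : mm δ s / (2 * s) ≤ s * mm δ s ^ 3 := by
  have h1 := mm_ge hδ hs
  have h0 : 0 < s := hδ.trans_le hs
  have h2 := mm_pos hδ s
  rw [div_le_iff₀ (by positivity)]
  nlinarith

lemma mm_ineq2 {δ s : ℝ} (hδ : 0 < δ) (hs : δ ≤ s) : mm δ s ^ 2 / 2 ≤ s * mm δ s ^ 3 := by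
  have h1 := mm_ge' hδ hs
  have h2 : 0 < mm δ s ^ 2 := pow_pos (mm_pos hδ s) 2
  nlinarith

/-- the exponential part of the barrier -/
noncomputable def AA (l Λ θ δ s z : ℝ) : ℝ := Real.exp (l + Λ * s - θ * z ^ 2 * mm δ s)

/-- the barrier minus the end penalty -/
noncomputable def PP (T l Λ θ δ η κ s0 : ℝ) (t z : ℝ) : ℝ :=
  (T - t) ^ 2 / 4 - AA l Λ θ δ (T - t) z - η * Real.exp (κ * (T - t - s0))

lemma hasDerivAt_AA_z (l Λ θ δ s z : ℝ) :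
    HasDerivAt (AA l Λ θ δ s) (-(2 * θ * z * mm δ s * AA l Λ θ δ s z)) z := by
  have h1 : HasDerivAt (fun z : ℝ => l + Λ * s - θ * z ^ 2 * mm δ s)
      (-(θ * (2 * z) * mm δ s)) z := by
    have := ((((hasDerivAt_id z).pow 2).const_mul θ).mul_const (mm δ s)).const_sub (l + Λ * s)
    simpa using this
  refine h1.exp.congr_deriv ?_
  rw [AA]; ring

lemma hasDerivAt_AA_s {l Λ θ δ : ℝ} (hδ : 0 < δ) (s z : ℝ) :
    HasDerivAt (fun s => AA l Λ θ δ s z) (AA l Λ θ δ s z * (Λ + θ * z ^ 2 * (s * mm δ s ^ 3))) s := by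
  have h1 : HasDerivAt (fun s : ℝ => l + Λ * s - θ * z ^ 2 * mm δ s)
      (Λ - θ * z ^ 2 * (-(s * mm δ s ^ 3))) s := by
    have h2 := ((hasDerivAt_id s).const_mul Λ).const_add l
    have h3 := (hasDerivAt_mm hδ s).const_mul (θ * z ^ 2)
    refine (h2.sub h3).congr_deriv ?_
    simp
  refine h1.exp.congr_deriv ?_
  rw [AA]; ring

lemma hasDerivAt_PP_z (T l Λ θ δ η κ s0 t z : ℝ) :
    HasDerivAt (PP T l Λ θ δ η κ s0 t)
      (2 * θ * z * mm δ (T - t) * AA l Λ θ δ (T - t) z) z := by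
  have := ((hasDerivAt_AA_z l Λ θ δ (T - t) z).const_sub ((T - t) ^ 2 / 4)).sub_const
    (η * Real.exp (κ * (T - t - s0)))
  refine this.congr_deriv ?_
  ring

lemma hasDerivAt_PP_zz (T l Λ θ δ t z : ℝ) :
    HasDerivAt (fun z => 2 * θ * z * mm δ (T - t) * AA l Λ θ δ (T - t) z)
      (2 * θ * mm δ (T - t) * AA l Λ θ δ (T - t) z -
        4 * θ ^ 2 * z ^ 2 * mm δ (T - t) ^ 2 * AA l Λ θ δ (T - t) z) z := by
  have h1 : HasDerivAt (fun z : ℝ => 2 * θ * z * mm δ (T - t)) (2 * θ * mm δ (T - t)) z := by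
    have := ((hasDerivAt_id z).const_mul (2 * θ)).mul_const (mm δ (T - t))
    simpa using this
  have h2 := h1.mul (hasDerivAt_AA_z l Λ θ δ (T - t) z)
  refine h2.congr_deriv ?_
  ring

lemma hasDerivAt_PP_t {T l Λ θ δ η κ s0 : ℝ} (hδ : 0 < δ) (t z : ℝ) :
    HasDerivAt (fun t => PP T l Λ θ δ η κ s0 t z)
      (-((T - t) / 2) + AA l Λ θ δ (T - t) z * (Λ + θ * z ^ 2 * ((T - t) * mm δ (T - t) ^ 3)) +
        κ * η * Real.exp (κ * (T - t - s0))) t := by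
  have hT : HasDerivAt (fun t : ℝ => T - t) (-1) t := by
    simpa using (hasDerivAt_id t).const_sub T
  have h1 : HasDerivAt (fun t : ℝ => (T - t) ^ 2 / 4) (-((T - t) / 2)) t := by
    refine ((hT.pow 2).div_const 4).congr_deriv ?_
    simp; ring
  have h2 := (hasDerivAt_AA_s (l := l) (Λ := Λ) (θ := θ) hδ (T - t) z).comp t hT
  have h3 : HasDerivAt (fun t : ℝ => η * Real.exp (κ * (T - t - s0)))
      (-(κ * η * Real.exp (κ * (T - t - s0)))) t := by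
    refine ((((hT.sub_const s0).const_mul κ).exp).const_mul η).congr_deriv ?_
    ring
  refine ((h1.sub h2).sub h3).congr_deriv ?_
  ring

/-- the test function -/
noncomputable def phi (i0 : Fin n) (T l Λ θ δ η κ s0 N a : ℝ) (r : ℝ × E n) : ℝ :=
  tst i0 (PP T l Λ θ δ η κ s0 r.1) N a r.2

lemma contDiff_phi (i0 : Fin n) {T l Λ θ δ η κ s0 N a : ℝ} (hδ : 0 < δ) :
    ContDiff ℝ ((⊤ : ℕ∞) : WithTop ℕ∞) (phi i0 T l Λ θ δ η κ s0 N a) := by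
  have h0 : ContDiff ℝ ((⊤ : ℕ∞) : WithTop ℕ∞) (fun r : ℝ × E n => r.2 i0) :=
    (pr i0).contDiff.comp contDiff_snd
  have h1 : ContDiff ℝ ((⊤ : ℕ∞) : WithTop ℕ∞) (fun r : ℝ × E n => zeta i0 r.2) := by
    have h2 : ContDiff ℝ ((⊤ : ℕ∞) : WithTop ℕ∞) (fun r : ℝ × E n => ‖r.2‖ ^ 2) :=
      contDiff_snd.norm_sq ℝ
    exact (contDiff_const.sub h2).add (h0.pow 2)
  have h3 : ContDiff ℝ ((⊤ : ℕ∞) : WithTop ℕ∞) (fun r : ℝ × E n => T - r.1) :=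
    contDiff_const.sub contDiff_fst
  have h4 : ContDiff ℝ ((⊤ : ℕ∞) : WithTop ℕ∞) (fun r : ℝ × E n => mm δ (T - r.1)) :=
    (contDiff_mm hδ).comp h3
  have h5 : ContDiff ℝ ((⊤ : ℕ∞) : WithTop ℕ∞)
      (fun r : ℝ × E n => AA l Λ θ δ (T - r.1) (zeta i0 r.2)) :=
    Real.contDiff_exp.comp ((contDiff_const.add (contDiff_const.mul h3)).sub
      ((contDiff_const.mul (h1.pow 2)).mul h4))
  have h6 : ContDiff ℝ ((⊤ : ℕ∞) : WithTop ℕ∞)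
      (fun r : ℝ × E n => η * Real.exp (κ * (T - r.1 - s0))) :=
    contDiff_const.mul (Real.contDiff_exp.comp (contDiff_const.mul (h3.sub contDiff_const)))
  exact ((((h3.pow 2).div_const 4).sub h5).sub h6).sub
    (contDiff_const.mul ((h0.sub contDiff_const).pow 2))

/-- The strict inequality for the test functions. -/
lemma test_ineq (D : EqData n d) (i0 : Fin n) {T l Λ θ δ η κ s0 N a K : ℝ} {t : ℝ} {x : E n}
    (hδ : 0 < δ) (hK : 0 ≤ K) (hθ : 0 < θ) (hθK : 64 * θ * K ^ 2 ≤ 1) (hl : 0 ≤ l)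
    (hΛ : Λ = 8 * Real.exp 160 + 2 * θ * (16 * K + 2 * K ^ 2) ^ 2) (hη : 0 ≤ η) (hκ : 0 ≤ κ)
    (hs : δ ≤ T - t) (hs1 : T - t ≤ 1) (hζ : 0 ≤ zeta i0 x) (hx : |x i0| ≤ 2)
    (hb0 : ‖D.b t 0‖ ≤ K) (hbL : ‖D.b t x - D.b t 0‖ ≤ K * ‖x‖) (hσK : frob (D.σ t x) ≤ K)
    (hb : D.b t x i0 = 0) (hσ : ∀ j, D.σ t x i0 j = 0) :
    (T - t) / 10 ≤ dt (phi i0 T l Λ θ δ η κ s0 N a) (t, x) +
      D.L (phi i0 T l Λ θ δ η κ s0 N a) (t, x) +
      G ((T - t) ^ 2 / 4 - AA l Λ θ δ (T - t) (zeta i0 x)) := by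
  have hs0 : 0 < T - t := hδ.trans_le hs
  have hdt : dt (phi i0 T l Λ θ δ η κ s0 N a) (t, x) = -((T - t) / 2) +
      AA l Λ θ δ (T - t) (zeta i0 x) *
        (Λ + θ * zeta i0 x ^ 2 * ((T - t) * mm δ (T - t) ^ 3)) +
        κ * η * Real.exp (κ * (T - t - s0)) := by
    rw [dt]
    exact ((hasDerivAt_PP_t hδ t (zeta i0 x)).sub_const (N * (x i0 - a) ^ 2)).deriv
  have hL := L_tst D i0 (PP T l Λ θ δ η κ s0)
    (fun z => 2 * θ * z * mm δ (T - t) * AA l Λ θ δ (T - t) z)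
    (fun z => 2 * θ * mm δ (T - t) * AA l Λ θ δ (T - t) z -
        4 * θ ^ 2 * z ^ 2 * mm δ (T - t) ^ 2 * AA l Λ θ δ (T - t) z) N a t x
    (fun z => hasDerivAt_PP_z _ _ _ _ _ _ _ _ _ _) (fun z => hasDerivAt_PP_zz _ _ _ _ _ _ _) hb hσ
  have hL' : D.L (phi i0 T l Λ θ δ η κ s0 N a) (t, x) = _ := hL
  have hz1 := zeta_le_one i0 x
  -- bounds of the coefficients
  have hF : ∑ i, ∑ k, D.σ t x i k ^ 2 ≤ K ^ 2 := by
    have h1 : frob (D.σ t x) ^ 2 = ∑ i, ∑ k, D.σ t x i k ^ 2 :=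
      Real.sq_sqrt (Finset.sum_nonneg fun i _ => Finset.sum_nonneg fun k _ => sq_nonneg _)
    rw [← h1]
    exact pow_le_pow_left₀ (Real.sqrt_nonneg _) hσK 2
  have hF0 : 0 ≤ ∑ i, ∑ k, D.σ t x i k ^ 2 :=
    Finset.sum_nonneg fun i _ => Finset.sum_nonneg fun k _ => sq_nonneg _
  have hS0 : 0 ≤ ∑ k, (∑ i, D.σ t x i k * x i) ^ 2 := Finset.sum_nonneg fun k _ => sq_nonneg _
  have hS : ∑ k, (∑ i, D.σ t x i k * x i) ^ 2 ≤ K ^ 2 := by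
    calc ∑ k, (∑ i, D.σ t x i k * x i) ^ 2
        ≤ ∑ k, ∑ i, D.σ t x i k ^ 2 := by
          refine Finset.sum_le_sum fun k _ => ?_
          refine (cs_zeta i0 x (fun i => D.σ t x i k) (hσ k)).trans ?_
          have : 0 ≤ ∑ i, D.σ t x i k ^ 2 := Finset.sum_nonneg fun i _ => sq_nonneg _
          nlinarith
      _ = ∑ i, ∑ k, D.σ t x i k ^ 2 := Finset.sum_comm
      _ ≤ K ^ 2 := hF
  have hbx : |inner ℝ x (D.b t x)| ≤ 4 * K := by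
    have h1 : (inner ℝ x (D.b t x)) ^ 2 ≤ ‖D.b t x‖ ^ 2 := by
      have h2 : inner ℝ x (D.b t x) = ∑ i, (D.b t x) i * x i := by
        rw [PiLp.inner_apply]
        exact Finset.sum_congr rfl fun i _ => by simp
      have h3 : ‖D.b t x‖ ^ 2 = ∑ i, (D.b t x) i ^ 2 := by
        rw [EuclideanSpace.norm_sq_eq]
        exact Finset.sum_congr rfl fun i _ => by rw [Real.norm_eq_abs, sq_abs]
      rw [h2, h3]
      refine (cs_zeta i0 x (fun i => (D.b t x) i) hb).trans ?_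
      have : 0 ≤ ∑ i, (D.b t x) i ^ 2 := Finset.sum_nonneg fun i _ => sq_nonneg _
      nlinarith
    have h4 : |inner ℝ x (D.b t x)| ≤ ‖D.b t x‖ := by
      exact abs_le_of_sq_le_sq h1 (norm_nonneg _)
    have h5 : ‖D.b t x‖ ≤ K + K * ‖x‖ := by
      have : D.b t x = D.b t 0 + (D.b t x - D.b t 0) := by abel
      rw [this]
      exact (norm_add_le _ _).trans (add_le_add hb0 hbL)
    have h6 : ‖x‖ ≤ 3 := by
      have h7 : ‖x‖ ^ 2 = 1 - zeta i0 x + x i0 ^ 2 := by rw [zeta]; ring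
      have h8 : x i0 ^ 2 ≤ 2 ^ 2 := by rw [← sq_abs]; exact pow_le_pow_left₀ (abs_nonneg _) hx 2
      nlinarith [norm_nonneg x]
    nlinarith
  have hlin := lin_ineq (s := T - t) (ζ := zeta i0 x) (m := mm δ (T - t))
    (A := AA l Λ θ δ (T - t) (zeta i0 x)) (K := K) (θ := θ) (Λ := Λ)
    (bx := inner ℝ x (D.b t x)) (S := ∑ k, (∑ i, D.σ t x i k * x i) ^ 2)
    (F := ∑ i, ∑ k, D.σ t x i k ^ 2) (c1 := 8 * Real.exp 160) hs0 hζ (mm_pos hδ _)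
    (Real.exp_pos _).le hK hθ hbx hS0 hS hF0 hF (mm_ineq1 hδ hs) (mm_ineq2 hδ hs) hθK hΛ
  have hΛ0 : 0 ≤ Λ := by rw [hΛ]; positivity
  have hstar := star_ineq (s := T - t) (v := θ * zeta i0 x ^ 2 * mm δ (T - t))
    (l := l + Λ * (T - t)) hs0 hs1 (by have := mm_pos hδ (T - t); positivity) (by positivity)
  have hexp : 0 ≤ κ * η * Real.exp (κ * (T - t - s0)) := by positivity
  rw [hdt, hL']
  have hAA : Real.exp (l + Λ * (T - t) - θ * zeta i0 x ^ 2 * mm δ (T - t)) =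
      AA l Λ θ δ (T - t) (zeta i0 x) := rfl
  rw [hAA] at hstar
  linarith

end Pool.Agent.Lib_helper39.Visc
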